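import Pool.Agent.Helper82.Nest.Reach
import Pool.Agent.Helper81.Tile.ArmUp

/-!
Lower bound of the number of loops around the marked site by the number of colour changes.
-/

set_option warn.classDefReducibility false

namespace H82Nest
open Finset H47Perc Cyl H92Link H81Tile IPC OneArm
open IP (St)

/-! ### corners of points -/

/-- the corner of a vertex or face -/
def cn (p : Pt) : ℤ × ℤ := if p.2 then fc p.1 else st p.1

lemma cn_v (u : ℤ × ℤ) : cn (u, false) = st u := rfl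

lemma cn_f (f : ℤ × ℤ) : cn (f, true) = fc f := rfl

lemma cn_eq_st {q : Pt} {a : ℤ × ℤ} (h : cn q = st a) : q = (a, false) := by
  obtain ⟨z, b⟩ := q
  rcases b with _ | _
  · rw [cn_v] at h
    rw [st_inj h]
  · rw [cn_f] at h
    exact absurd h.symm (st_ne_fc _ _)

lemma cn_eq_fc {q : Pt} {a : ℤ × ℤ} (h : cn q = fc a) : q = (a, true) := by
  obtain ⟨z, b⟩ := q
  rcases b with _ | _
  · rw [cn_v] at h
    exact absurd h (st_ne_fc _ _)
  · rw [cn_f] at h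
    rw [fc_inj h]

/-- the points reached with at most `j` colour changes -/
def Bl (η : Finset (Sym2 (ℤ × ℤ))) (r j : ℕ) : Set Pt :=
  {p | ∃ k ≤ j, Reach (η : Set (Sym2 (ℤ × ℤ))) (AS ((0:ℕ):ℤ) r) (Sph ((0:ℕ):ℤ)) k p}

lemma bl_mono {η : Finset (Sym2 (ℤ × ℤ))} {r i j : ℕ} (h : i ≤ j) {p : Pt} (hp : p ∈ Bl η r i) :
    p ∈ Bl η r j := by
  obtain ⟨k, hk, h1⟩ := hp
  exact ⟨k, hk.trans h, h1⟩

lemma nrm_nn (u : ℤ × ℤ) : ((0:ℕ):ℤ) ≤ nrm u := by
  unfold H47Perc.nrm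
  simp

lemma bl_v {η : Finset (Sym2 (ℤ × ℤ))} {r j : ℕ} (hj : j < cc 0 r η) {u : ℤ × ℤ}
    (h : ((u, false) : Pt) ∈ Bl η r j) : nrm u < r := by
  obtain ⟨k, hk, h1⟩ := h
  have h2 := h1.mem
  rw [AS_v] at h2
  rcases h2.2.lt_or_eq with h3 | h3
  · exact h3
  · exact absurd (cc_le h3 h1) (by omega)

lemma bl_f {η : Finset (Sym2 (ℤ × ℤ))} {r j : ℕ} (hj : j + 1 < cc 0 r η) {f : ℤ × ℤ}
    (h : ((f, true) : Pt) ∈ Bl η r j) {u : ℤ × ℤ} (hu : Cor u f) : nrm u < r := by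
  obtain ⟨k, hk, h1⟩ := h
  have h2 := h1.mem
  rw [AS_f] at h2
  have h4 := h2 u hu
  refine bl_v (η := η) (j := j + 1) hj ⟨k + 1, by omega, Reach.up h1 hu ?_⟩
  rw [AS_v]
  exact h4

lemma cor_self (f : ℤ × ℤ) : Cor f f := ⟨Or.inl rfl, Or.inl rfl⟩

lemma cor_diag (f : ℤ × ℤ) : Cor (f.1 + 1, f.2 + 1) f := ⟨Or.inr rfl, Or.inr rfl⟩

/-- bound of the coordinates of the corners of the ball -/
lemma bl_bd {η : Finset (Sym2 (ℤ × ℤ))} {r j : ℕ} (hj : j + 1 < cc 0 r η) {q : Pt}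
    (h : q ∈ Bl η r j) : -(2 * (r:ℤ) - 2) ≤ (cn q).1 ∧ (cn q).1 ≤ 2 * (r:ℤ) - 2 ∧
      -(2 * (r:ℤ) - 2) ≤ (cn q).2 ∧ (cn q).2 ≤ 2 * (r:ℤ) - 2 := by
  obtain ⟨z, b⟩ := q
  rcases b with _ | _
  · have h1 := bl_v (by omega) h
    have h2 : nrm z ≤ (r:ℤ) - 1 := by omega
    rw [nrm_le, abs_le, abs_le] at h2
    rw [cn_v]
    unfold st
    simp only
    omega
  · have h1 := bl_f hj h (cor_self z)
    have h2 : nrm z ≤ (r:ℤ) - 1 := by omega
    have h3 := bl_f hj h (cor_diag z)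
    have h4 : nrm (z.1 + 1, z.2 + 1) ≤ (r:ℤ) - 1 := by omega
    rw [nrm_le, abs_le, abs_le] at h2 h4
    rw [cn_f]
    unfold fc
    simp only at h4 ⊢
    omega

/-! ### the closed sets of corners -/

/-- corners of the ball, shifted by the multiples of the period with parity `s` -/
def CS (n : ℕ) (η : Finset (Sym2 (ℤ × ℤ))) (r j : ℕ) (s : ℤ) : Set (ℤ × ℤ) :=
  {c | ∃ k : ℤ, ∃ q ∈ Bl η r j, c = ((cn q).1 + (2 * k + s) * (2 * n), (cn q).2)}

lemma jn_shift {L : ℤ} {t : TC} (ht : Per L t) {p u v : ℤ × ℤ} (h : Jn t p u v) (k : ℤ) :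
    Jn t (p.1 + k * L, p.2) (u.1 + k * L, u.2) (v.1 + k * L, v.2) := by
  obtain ⟨c, rfl, rfl, hc⟩ := h
  refine ⟨c, ?_, ?_, ?_⟩
  · unfold cor
    ext
    · simp; ring
    · simp
  · unfold cor
    ext
    · simp; ring
    · simp
  · rw [ht.mul k p]
    exact hc

lemma sep_edge {f g : ℤ × ℤ} {e : Sym2 (ℤ × ℤ)} (h : Sep f g e) :
    ∃ u w, e = s(u, w) ∧ lattice.Adj u w ∧ Cor u f ∧ Cor w f ∧ Cor u g ∧ Cor w g := by
  rcases h with ⟨rfl, rfl⟩ | ⟨rfl, rfl⟩ | ⟨rfl, rfl⟩ | ⟨rfl, rfl⟩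
  · refine ⟨_, _, rfl, lattice_vE _ _, ?_, ?_, ?_, ?_⟩ <;> unfold Cor <;> simp
  · refine ⟨_, _, rfl, lattice_vE _ _, ?_, ?_, ?_, ?_⟩ <;> unfold Cor <;> simp
  · refine ⟨_, _, rfl, lattice_hE _ _, ?_, ?_, ?_, ?_⟩ <;> unfold Cor <;> simp
  · refine ⟨_, _, rfl, lattice_hE _ _, ?_, ?_, ?_, ?_⟩ <;> unfold Cor <;> simp

lemma mem_QB {r : ℕ} {u : ℤ × ℤ} : u ∈ QB r ↔ nrm u ≤ r := by
  unfold QB
  rw [mem_box, nrm_le, abs_le, abs_le]
  tauto

/-- one step from the ball stays in the ball -/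
lemma bl_step {n r j : ℕ} {ω : Finset (Sym2 (ℤ × ℤ))} (hj : j + 1 < cc 0 r (pw n (QB r) ω)) {q : Pt}
    (hq : q ∈ Bl (pw n (QB r) ω) r j) {p v : ℤ × ℤ} (h : Jn (tc n ω) p (cn q) v) :
    ∃ q' ∈ Bl (pw n (QB r) ω) r j, v = cn q' := by
  have h0 : CStep (tcOf (lft n ω)) (tilesOf Set.univ) (cn q) v := ⟨p, Set.mem_univ _, h⟩
  rcases cstep_cases h0 with ⟨a, b, h1, h2, h3⟩ | ⟨f, g, h1, h2, h3⟩
  · have h4 := cn_eq_st h1
    subst h4
    obtain ⟨-, ho, hadj⟩ := h3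
    have h5 := bl_v (by omega) hq
    obtain ⟨k, hk, h6⟩ := hq
    have h7 := adj_nrm hadj.symm
    refine ⟨(b, false), ⟨k, hk, Reach.opn h6 hadj ?_ ?_⟩, h2⟩
    · rw [mem_coe, mem_pw, mem_edgesIn, mem_QB, mem_QB]
      exact ⟨⟨by omega, by omega, hadj⟩, ho.2⟩
    · rw [AS_v]
      exact ⟨nrm_nn _, by omega⟩
  · have h4 := cn_eq_fc h1
    subst h4
    obtain ⟨e, -, he, hs⟩ := h3
    obtain ⟨u, w, rfl, hadj, c1, c2, c3, c4⟩ := sep_edge hs
    have h5 := bl_f hj hq c1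
    obtain ⟨k, hk, h6⟩ := hq
    refine ⟨(g, true), ⟨k, hk, Reach.cls h6 hadj ?_ c1 c2 c3 c4 ?_⟩, h2⟩
    · rw [mem_coe, mem_pw]
      intro hc
      exact he ⟨(SimpleGraph.mem_edgeSet _).2 hadj, hc.2⟩
    · rw [AS_f]
      intro x hx
      have := nrm_cor hx c3
      exact ⟨nrm_nn _, by omega⟩

lemma cs_closed {n r j : ℕ} (hn : 1 ≤ n) {ω : Finset (Sym2 (ℤ × ℤ))}
    (hj : j + 1 < cc 0 r (pw n (QB r) ω)) (s : ℤ) {p u v : ℤ × ℤ} (h : Jn (tc n ω) p u v) :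
    u ∈ CS n (pw n (QB r) ω) r j s ↔ v ∈ CS n (pw n (QB r) ω) r j s := by
  have key : ∀ u v, Jn (tc n ω) p u v → u ∈ CS n (pw n (QB r) ω) r j s →
      v ∈ CS n (pw n (QB r) ω) r j s := by
    rintro u v h ⟨k, q, hq, rfl⟩
    have h1 := jn_shift (tc_per hn ω) h (-(2 * k + s))
    have e : (((cn q).1 + (2 * k + s) * (2 * (n:ℤ)), (cn q).2).1 + -(2 * k + s) * ((2 * n : ℕ) : ℤ),
        ((cn q).1 + (2 * k + s) * (2 * (n:ℤ)), (cn q).2).2) = cn q := by
      ext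
      · simp only
        push_cast
        ring
      · rfl
    rw [e] at h1
    obtain ⟨q', hq', h2⟩ := bl_step hj hq h1
    refine ⟨k, q', hq', ?_⟩
    rw [← h2]
    ext
    · simp only
      push_cast
      ring
    · rfl
  exact ⟨key u v h, key v u h.symm⟩

lemma cs_per {n r j : ℕ} {η : Finset (Sym2 (ℤ × ℤ))} {s : ℤ} (x y : ℤ) :
    (x + (((2 * n : ℕ) : ℤ) + ((2 * n : ℕ) : ℤ)), y) ∈ CS n η r j s ↔ (x, y) ∈ CS n η r j s := by
  constructor
  · rintro ⟨k, q, hq, h⟩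
    rw [Prod.mk.injEq] at h
    refine ⟨k - 1, q, hq, ?_⟩
    rw [Prod.mk.injEq]
    refine ⟨?_, h.2⟩
    have := h.1
    push_cast at this
    linear_combination this
  · rintro ⟨k, q, hq, h⟩
    rw [Prod.mk.injEq] at h
    refine ⟨k + 1, q, hq, ?_⟩
    rw [Prod.mk.injEq]
    refine ⟨?_, h.2⟩
    have := h.1
    push_cast
    linear_combination this

lemma cs_height {n r j : ℕ} {η : Finset (Sym2 (ℤ × ℤ))} (hj : j + 1 < cc 0 r η) {s x y : ℤ}
    (h : (x, y) ∈ CS n η r j s) : -(2 * (r:ℤ) - 2) ≤ y ∧ y ≤ 2 * (r:ℤ) - 2 := by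
  obtain ⟨k, q, hq, h⟩ := h
  rw [Prod.mk.injEq] at h
  have h1 := bl_bd hj hq
  rw [h.2]
  exact ⟨h1.2.2.1, h1.2.2.2⟩

/-- the boundary is periodic -/
lemma bdry_inv {C : Set (ℤ × ℤ)} {a : ℤ} (hC : ∀ x y : ℤ, (x + a, y) ∈ C ↔ (x, y) ∈ C) :
    Inv a (bdry C) := by
  intro d
  have e : ∀ c : Fin 4, cor (d.1.1 + a, d.1.2) c = ((cor d.1 c).1 + a, (cor d.1 c).2) := by
    intro c
    unfold cor
    ext
    · simp; ring
    · simp
  rw [mem_bdry, mem_bdry]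
  unfold lc rc H81Tile.sh
  simp only
  rw [e, e, hC, hC]

/-! ### the odd blocks -/

/-- the nodes on the boundary of `C` -/
def XN (L : ℕ) (C : Set (ℤ × ℤ)) (x : ℕ) : Prop := 4 ≤ x ∧ x < 2 * L + 4 ∧ up (pos L x) 0 ∈ bdry C

lemma xn_sup {L m : ℕ} {t : TC} (ht : Per L t) {b b' : ℕ → ℕ → Bool}
    (hb : ∀ j < m, ∀ i < L, t ((i : ℤ), (j : ℤ)) = b j i)
    (hb' : ∀ j < m, ∀ i < L, t ((i : ℤ), -1 - (j : ℤ)) = !b' j i)
    {σ τ : St} (hσ : σ ∈ W L) (hτ : τ ∈ W L) {C : Set (ℤ × ℤ)}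
    (hC : ∀ p u v, Jn t p u v → (u ∈ C ↔ v ∈ C))
    (hper : ∀ x y : ℤ, (x + ((L:ℤ) + L), y) ∈ C ↔ (x, y) ∈ C)
    (htop : ∀ x : ℤ, (x, (m:ℤ)) ∉ C) (hbot : ∀ x : ℤ, (x, -(m:ℤ)) ∉ C) {x y : ℕ}
    (h : (mact L b m σ ⊔ mact L b' m τ) x y) : XN L C x ↔ XN L C y := by
  have hα := mact_W b m hσ
  have hβ := mact_W b' m hτ
  let S : St :=
    { r := fun x y => (XN L C x ↔ XN L C y)
      iseqv := ⟨fun _ => Iff.rfl, fun h => h.symm, fun h1 h2 => h1.trans h2⟩ }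
  have hinv : Inv ((L:ℤ) + L) (bdry C) := bdry_inv hper
  refine IPC.sup_le_of (S := S) ?_ ?_ x y h
  · intro x y hxy
    show XN L C x ↔ XN L C y
    have h1 := lf_node hα hxy
    by_cases hx : 4 ≤ x ∧ x < 2 * L + 4
    · have hy := h1.1 hx
      have key := mact_resp ht (bdry_closed (R := rows 0 m) fun p _ => hC p) (by
        intro j
        have := hinv (ve 0 j)
        have e : H81Tile.sh ((L : ℤ) + L) (ve 0 j) = ve (L + L) j := by
          simp [H81Tile.sh, ve]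
        rwa [e] at this) hb hσ (by
        have hno : ∀ z : ℤ, up z (m:ℤ) ∉ bdry C := by
          intro z
          rw [mem_bdry, (up_zero _ _).1, (up_zero _ _).2, not_not]
          exact iff_of_false (htop _) (htop _)
        intro u v _ _ _ _ _
        exact iff_of_false (hno _) (hno _)) hx.1 hx.2 hy.1 hy.2 hxy
      unfold XN
      tauto
    · unfold XN
      tauto
  · intro x y hxy
    show XN L C x ↔ XN L C y
    have h1 := lf_node hβ hxy
    by_cases hx : 4 ≤ x ∧ x < 2 * L + 4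
    · have hy := h1.1 hx
      have key := mact_resp_dn ht (bdry_closed (R := rows (-m) 0) fun p _ => hC p) hinv hb' hτ (by
        intro z
        have e : dn z (-(m:ℤ)) = rev (up z (-m)) := (rev_up _ _).symm
        rw [e, mem_bdry, lc_rev, rc_rev, (up_zero _ _).1, (up_zero _ _).2, not_not]
        exact iff_of_false (hbot _) (hbot _)) hx.1 hx.2 hy.1 hy.2 hxy
      unfold XN
      tauto
    · unfold XN
      tauto

open Classical in
/-- an odd block on the boundary of `C` -/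
lemma exists_odd {L : ℕ} {C : Set (ℤ × ℤ)} {S : St} (hS : ∀ x y, S x y → (XN L C x ↔ XN L C y))
    (h01 : ¬ (((0:ℤ), (0:ℤ)) ∈ C ↔ ((L:ℤ), (0:ℤ)) ∈ C)) :
    ∃ x ∈ lf_A L, XN L C x ∧ Odd (lf_blk (lf_A L) S x).card := by
  by_contra hcon
  push Not at hcon
  have h1 : Even (((lf_A L).filter (XN L C)).filter (XN L C)).card := by
    apply lf_even_union (S := S) _ _ hS
    intro x hx
    rw [mem_filter] at hx
    have h2 := hcon x hx.1 hx.2
    rw [Nat.not_odd_iff_even] at h2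
    have e : lf_blk ((lf_A L).filter (XN L C)) S x = lf_blk (lf_A L) S x := by
      ext y
      rw [lf_mem_blk, lf_mem_blk, mem_filter]
      constructor
      · rintro ⟨⟨h3, _⟩, h4⟩; exact ⟨h3, h4⟩
      · rintro ⟨h3, h4⟩; exact ⟨⟨h3, (hS _ _ h4).1 hx.2⟩, h4⟩
    rw [e]
    exact h2
  rw [filter_filter] at h1
  simp only [and_self] at h1
  have h2 : ((lf_A L).filter (XN L C)).card = ((range L).filter fun i : ℕ => up (i:ℤ) 0 ∈ bdry C).card := by
    unfold lf_A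
    rw [filter_image, card_image_of_injective _ (fun a b h => by have h' : 2 * a + 4 = 2 * b + 4 := h; omega)]
    congr 1
    apply filter_congr
    intro i hi
    rw [mem_range] at hi
    have e : pos L (2 * i + 4) = i := by
      unfold pos
      rw [show (2 * i + 4 - 4) / 2 = i by omega, show (2 * i + 4) % 2 = 0 by omega]
      simp
    unfold XN
    rw [e]
    constructor
    · rintro ⟨_, _, h⟩; exact h
    · intro h; exact ⟨by omega, by omega, h⟩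
  rw [h2] at h1
  have h3 := ind_sum C (Nat.zero_le L)
  have h4 : ∑ i ∈ Finset.Ico 0 L, chi (bdry C) (up (i:ℤ) 0) =
      (((range L).filter fun i : ℕ => up (i:ℤ) 0 ∈ bdry C).card : ZMod 2) := by
    rw [← Finset.range_eq_Ico, Finset.card_filter]
    push_cast
    apply Finset.sum_congr rfl
    intro i _
    unfold chi
    rfl
  rw [h4] at h3
  have h5 : (((range L).filter fun i : ℕ => up (i:ℤ) 0 ∈ bdry C).card : ZMod 2) = 0 :=
    (ZMod.natCast_eq_zero_iff_even).2 h1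
  rw [h5] at h3
  unfold H92Link.ind at h3
  rw [Nat.cast_zero] at h3
  by_cases h6 : ((0:ℤ), (0:ℤ)) ∈ C <;> by_cases h7 : ((L:ℤ), (0:ℤ)) ∈ C
  · exact h01 (iff_of_true h6 h7)
  · rw [if_pos h6, if_neg h7] at h3
    exact absurd h3 (by decide)
  · rw [if_neg h6, if_pos h7] at h3
    exact absurd h3 (by decide)
  · exact h01 (iff_of_false h6 h7)

/-! ### disjointness -/

lemma st_adj (u : ℤ × ℤ) : (∃ f, Cor u f ∧ fc f = ((st u).1 + 1, (st u).2)) ∧
    ∃ f, Cor u f ∧ fc f = ((st u).1 - 1, (st u).2) := by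
  refine ⟨⟨(u.1, u.2 - 1), ?_, ?_⟩, ⟨(u.1 - 1, u.2), ?_, ?_⟩⟩
  · unfold Cor; simp
  · unfold fc st; ext
    · simp only; ring
    · simp only; ring
  · unfold Cor; simp
  · unfold fc st; ext
    · simp only; ring
    · simp only; ring

lemma fc_adj (f : ℤ × ℤ) : (∃ u, Cor u f ∧ st u = ((fc f).1 + 1, (fc f).2)) ∧
    ∃ u, Cor u f ∧ st u = ((fc f).1 - 1, (fc f).2) := by
  refine ⟨⟨(f.1 + 1, f.2), ?_, ?_⟩, ⟨(f.1, f.2 + 1), ?_, ?_⟩⟩
  · unfold Cor; simp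
  · unfold fc st; ext
    · simp only; ring
    · simp only; ring
  · unfold Cor; simp
  · unfold fc st; ext
    · simp only; ring
    · simp only; ring

/-- the neighbours of a corner of the ball are in the next ball -/
lemma bl_next {η : Finset (Sym2 (ℤ × ℤ))} {r i j : ℕ} (hi : i + 1 < cc 0 r η) (hij : i < j) {q : Pt}
    (hq : q ∈ Bl η r i) : (∃ q' ∈ Bl η r j, cn q' = ((cn q).1 + 1, (cn q).2)) ∧
      ∃ q' ∈ Bl η r j, cn q' = ((cn q).1 - 1, (cn q).2) := by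
  obtain ⟨z, b⟩ := q
  rcases b with _ | _
  · have h1 := bl_v (by omega) hq
    have key : ∀ f, Cor z f → ((f, true) : Pt) ∈ Bl η r j := by
      intro f hf
      obtain ⟨k, hk, h2⟩ := hq
      refine ⟨k + 1, by omega, Reach.dn h2 hf ?_⟩
      rw [AS_f]
      intro u hu
      have := nrm_cor hu hf
      exact ⟨nrm_nn _, by omega⟩
    obtain ⟨⟨f, hf, e⟩, ⟨g, hg, e'⟩⟩ := st_adj z
    exact ⟨⟨_, key f hf, e⟩, ⟨_, key g hg, e'⟩⟩
  · have key : ∀ u, Cor u z → ((u, false) : Pt) ∈ Bl η r j := by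
      intro u hu
      have h1 := bl_f hi hq hu
      obtain ⟨k, hk, h2⟩ := hq
      refine ⟨k + 1, by omega, Reach.up h2 hu ?_⟩
      rw [AS_v]
      exact ⟨nrm_nn _, by omega⟩
    obtain ⟨⟨f, hf, e⟩, ⟨g, hg, e'⟩⟩ := fc_adj z
    exact ⟨⟨_, key f hf, e⟩, ⟨_, key g hg, e'⟩⟩

lemma cs_next {n r i j : ℕ} {η : Finset (Sym2 (ℤ × ℤ))} (hi : i + 1 < cc 0 r η) (hij : i < j)
    {s x y : ℤ} (h : (x, y) ∈ CS n η r i s) : (x, y) ∈ CS n η r j s ∧ (x + 1, y) ∈ CS n η r j s ∧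
      (x - 1, y) ∈ CS n η r j s := by
  obtain ⟨k, q, hq, h⟩ := h
  rw [Prod.mk.injEq] at h
  obtain ⟨h1, h2⟩ := h
  obtain ⟨⟨q1, hq1, e1⟩, ⟨q2, hq2, e2⟩⟩ := bl_next hi hij hq
  refine ⟨⟨k, q, bl_mono hij.le hq, ?_⟩, ⟨k, q1, hq1, ?_⟩, ⟨k, q2, hq2, ?_⟩⟩
  · rw [h1, h2]
  · rw [h1, h2, e1]
    ext
    · simp only; ring
    · rfl
  · rw [h1, h2, e2]
    ext
    · simp only; ring
    · rfl

/-- corners of different parity are far apart -/
lemma cs_far {n r i j : ℕ} {η : Finset (Sym2 (ℤ × ℤ))} (hi : i + 1 < cc 0 r η) (hj : j + 1 < cc 0 r η)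
    (hr : 2 * r < n) {s s' : ℤ} (hs : (s - s') % 2 = 1) {x y x' y' : ℤ} (h : (x, y) ∈ CS n η r i s)
    (h' : (x', y') ∈ CS n η r j s') (hx : x' - x ≤ 1) (hx' : x - x' ≤ 1) : False := by
  obtain ⟨k, q, hq, h⟩ := h
  obtain ⟨k', q', hq', h'⟩ := h'
  rw [Prod.mk.injEq] at h h'
  have b1 := bl_bd hi hq
  have b2 := bl_bd hj hq'
  have e : x - x' = (cn q).1 - (cn q').1 + (2 * (k - k') + (s - s')) * (2 * (n:ℤ)) := by
    rw [h.1, h'.1]; ring
  set c := 2 * (k - k') + (s - s') with hc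
  have hc1 : c % 2 = 1 := by omega
  have hn : (2 * (r:ℤ)) < n := by exact_mod_cast hr
  rcases (by omega : c ≤ -1 ∨ 1 ≤ c) with h3 | h3
  · have : c * (2 * (n:ℤ)) ≤ -1 * (2 * (n:ℤ)) := mul_le_mul_of_nonneg_right h3 (by omega)
    omega
  · have : 1 * (2 * (n:ℤ)) ≤ c * (2 * (n:ℤ)) := mul_le_mul_of_nonneg_right h3 (by omega)
    omega

lemma cs_zero {n r j : ℕ} {η : Finset (Sym2 (ℤ × ℤ))} {s : ℤ} : (s * (2 * (n:ℤ)), (0:ℤ)) ∈ CS n η r j s := by
  refine ⟨0, ((0, 0), false), ⟨0, Nat.zero_le _, Reach.start ?_ ?_⟩, ?_⟩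
  · rw [Sph_v]
    unfold H47Perc.nrm
    simp
  · rw [AS_v]
    unfold H47Perc.nrm
    simp
  · rw [cn_v]
    unfold st
    ext
    · simp
    · simp

/-- the sides on the boundary of two different sets are different -/
lemma cs_disj {n r i j : ℕ} {η : Finset (Sym2 (ℤ × ℤ))} (hi : i + 1 < cc 0 r η) (hj : j + 1 < cc 0 r η)
    (hr : 2 * r < n) {s s' : ℤ} (hs : s = 0 ∨ s = 1) (hs' : s' = 0 ∨ s' = 1) {z : ℤ}
    (h : up z 0 ∈ bdry (CS n η r i s)) (h' : up z 0 ∈ bdry (CS n η r j s')) : i = j ∧ s = s' := by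
  rw [mem_bdry, (up_zero _ _).1, (up_zero _ _).2] at h h'
  have hss : s = s' := by
    by_contra hne
    have hs2 : (s - s') % 2 = 1 := by omega
    by_cases h1 : (z, (0:ℤ)) ∈ CS n η r i s <;> by_cases h2 : (z, (0:ℤ)) ∈ CS n η r j s'
    · exact cs_far hi hj hr hs2 h1 h2 (by omega) (by omega)
    · exact cs_far hi hj hr hs2 h1 (y' := 0) (x' := z + 1) (by tauto) (by omega) (by omega)
    · exact cs_far hi hj hr hs2 (y := 0) (x := z + 1) (by tauto) h2 (by omega) (by omega)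
    · exact cs_far hi hj hr hs2 (y := 0) (x := z + 1) (y' := 0) (x' := z + 1) (by tauto) (by tauto)
        (by omega) (by omega)
  subst hss
  refine ⟨?_, rfl⟩
  have key : ∀ i j : ℕ, i + 1 < cc 0 r η → i < j →
      ¬ ((z, (0:ℤ)) ∈ CS n η r i s ↔ (z + 1, (0:ℤ)) ∈ CS n η r i s) →
      ¬ ((z, (0:ℤ)) ∈ CS n η r j s ↔ (z + 1, (0:ℤ)) ∈ CS n η r j s) → False := by
    intro i j hi hij h h'
    apply h'
    by_cases h1 : (z, (0:ℤ)) ∈ CS n η r i s
    · have h2 := cs_next hi hij h1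
      exact iff_of_true h2.1 h2.2.1
    · have h3 : (z + 1, (0:ℤ)) ∈ CS n η r i s := by tauto
      have h2 := cs_next hi hij h3
      rw [add_sub_cancel_right] at h2
      exact iff_of_true h2.2.2 h2.1
  rcases Nat.lt_trichotomy i j with h1 | h1 | h1
  · exact (key i j hi h1 h h').elim
  · exact h1
  · exact (key j i hj h1 h' h).elim

/-! ### the theorem -/

/-- parity of a Boolean -/
def sb (b : Bool) : ℤ := if b then 1 else 0

lemma sb_cases (b : Bool) : sb b = 0 ∨ sb b = 1 := by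
  rcases b with _ | _
  · left; rfl
  · right; rfl

lemma sb_inj {b b' : Bool} (h : sb b = sb b') : b = b' := by
  rcases b with _ | _ <;> rcases b' with _ | _ <;> simp_all [sb]

/-- (A) lower bound of the number of loops -/
theorem loops_ge {n N r : ℕ} (hr : 1 ≤ r) (hn : 2 * r < n) (_hN : N % 2 = 1) (hNn : 2 * r + 1 ≤ N)
    {ω : Finset (Sym2 (ℤ × ℤ))} (_hω : ω ⊆ cylE n (-(N:ℤ)) N) :
    cc 0 r (pw n (QB r) ω) ≤ nl n N ω / 2 + 1 := by
  classical
  set η := pw n (QB r) ω with hη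
  set D := cc 0 r η with hD
  have hn1 : 1 ≤ n := by omega
  have hS : ∀ i s, i + 1 < D → ∀ x y, (sgU n N ω ⊔ sgD n N ω) x y →
      (XN (2 * n) (CS n η r i s) x ↔ XN (2 * n) (CS n η r i s) y) := by
    intro i s hi x y h
    refine xn_sup (tc_per hn1 ω) (b := fun j i => tc n ω ((i:ℤ), (j:ℤ)))
      (b' := fun j i => !tc n ω ((i:ℤ), -1 - (j:ℤ))) (fun _ _ _ _ => rfl)
      (fun _ _ _ _ => by rw [Bool.not_not]) (top_W _) (top_W _)
      (fun p u v => cs_closed hn1 hi s) cs_per ?_ ?_ h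
    · intro x hx
      have := cs_height hi hx
      push_cast at this
      omega
    · intro x hx
      have := cs_height hi hx
      push_cast at this
      omega
  have h01 : ∀ i b, i + 1 < D → ¬ (((0:ℤ), (0:ℤ)) ∈ CS n η r i (sb b) ↔
      (((2 * n : ℕ) : ℤ), (0:ℤ)) ∈ CS n η r i (sb b)) := by
    intro i b hi h
    rcases b with _ | _
    · have h1 : ((0:ℤ), (0:ℤ)) ∈ CS n η r i 0 := by
        have := cs_zero (n := n) (η := η) (r := r) (j := i) (s := 0)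
        rwa [zero_mul] at this
      have h2 := h.1 h1
      have h3 : (((2 * n : ℕ) : ℤ), (0:ℤ)) ∈ CS n η r i 1 := by
        have := cs_zero (n := n) (η := η) (r := r) (j := i) (s := 1)
        rw [one_mul] at this
        push_cast
        exact this
      exact cs_far hi hi hn (s := 1) (s' := 0) (by norm_num) h3 h2 (by omega) (by omega)
    · have h3 : (((2 * n : ℕ) : ℤ), (0:ℤ)) ∈ CS n η r i 1 := by
        have := cs_zero (n := n) (η := η) (r := r) (j := i) (s := 1)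
        rw [one_mul] at this
        push_cast
        exact this
      have h2 := h.2 h3
      have h1 : ((0:ℤ), (0:ℤ)) ∈ CS n η r i 0 := by
        have := cs_zero (n := n) (η := η) (r := r) (j := i) (s := 0)
        rwa [zero_mul] at this
      exact cs_far hi hi hn (s := 1) (s' := 0) (by norm_num) h2 h1 (by omega) (by omega)
  have hex : ∀ q : ℕ × Bool, ∃ x, q.1 + 1 < D → x ∈ lf_A (2 * n) ∧
      XN (2 * n) (CS n η r q.1 (sb q.2)) x ∧
      Odd (lf_blk (lf_A (2 * n)) (sgU n N ω ⊔ sgD n N ω) x).card := by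
    intro q
    by_cases hq : q.1 + 1 < D
    · obtain ⟨x, h1, h2, h3⟩ := exists_odd (hS q.1 (sb q.2) hq) (h01 q.1 q.2 hq)
      exact ⟨x, fun _ => ⟨h1, h2, h3⟩⟩
    · exact ⟨0, fun h => absurd h hq⟩
  choose x hx using hex
  have hcard : (range (D - 1) ×ˢ (Finset.univ : Finset Bool)).card ≤ nl n N ω := by
    unfold nl
    rw [lf_nodd]
    unfold lf_nd
    refine Finset.card_le_card_of_injOn
      (fun q => lf_blk (lf_A (2 * n)) (sgU n N ω ⊔ sgD n N ω) (x q)) ?_ ?_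
    · intro q hq
      rw [mem_coe, mem_product, mem_range] at hq
      obtain ⟨h1, _, h3⟩ := hx q (by omega)
      exact mem_coe.2 (mem_image.2 ⟨x q, mem_filter.2 ⟨h1, h3⟩, rfl⟩)
    · intro q hq q' hq' h
      rw [mem_coe, mem_product, mem_range] at hq hq'
      obtain ⟨h1, h2, _⟩ := hx q (by omega)
      obtain ⟨h1', h2', _⟩ := hx q' (by omega)
      have h4 : x q' ∈ lf_blk (lf_A (2 * n)) (sgU n N ω ⊔ sgD n N ω) (x q') :=
        lf_mem_blk.2 ⟨h1', Setoid.refl' _ _⟩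
      have h5 : lf_blk (lf_A (2 * n)) (sgU n N ω ⊔ sgD n N ω) (x q) =
        lf_blk (lf_A (2 * n)) (sgU n N ω ⊔ sgD n N ω) (x q') := h
      rw [← h5] at h4
      have h6 := (hS q.1 (sb q.2) (by omega) _ _ (lf_mem_blk.1 h4).2).1 h2
      obtain ⟨e1, e2⟩ := cs_disj (show q.1 + 1 < cc 0 r η by omega) (show q'.1 + 1 < cc 0 r η by omega) hn
        (sb_cases _) (sb_cases _) h6.2.2 h2'.2.2
      exact Prod.ext e1 (sb_inj e2)
  rw [card_product, card_range, card_univ, Fintype.card_bool] at hcard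
  omega

end H82Nest
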