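import Pool.Agent.Helper18.Nest.LoopsGe

/-!
Upper bound of the number of loops around the marked site by the number of colour changes.
-/

set_option warn.classDefReducibility false

namespace H82Nest
open Finset H47Perc Cyl H92Link H81Tile IPC OneArm
open IP (St)

/-! ### orbits -/

/-- the reversal as a permutation -/
def rvp : Equiv.Perm DS where
  toFun := rev
  invFun := rev
  left_inv := rev_rev
  right_inv := rev_rev

lemma rvp_conj (t : TC) : rvp * stp t * rvp⁻¹ = (stp t)⁻¹ := by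
  rw [eq_inv_iff_mul_eq_one]
  ext1 d
  show rev (nxt t (rev (nxt t d))) = d
  rw [nxt_rev_nxt, rev_rev]

lemma rev_zpow (t : TC) (k : ℤ) (d : DS) : rev (((stp t) ^ k) d) = ((stp t) ^ (-k)) (rev d) := by
  have h := conj_zpow (i := k) (a := rvp) (b := stp t)
  rw [rvp_conj, inv_zpow'] at h
  have h2 := congrArg (fun e : Equiv.Perm DS => e (rev d)) h
  have h3 : (rvp * (stp t) ^ k * rvp⁻¹) (rev d) = rev (((stp t) ^ k) d) := by
    show rev (((stp t) ^ k) (rev (rev d))) = _
    rw [rev_rev]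
  rw [h3] at h2
  exact h2.symm

/-- the sides of the same interface -/
def Orb (t : TC) (d e : DS) : Prop := ∃ k : ℤ, e = ((stp t) ^ k) d ∨ e = rev (((stp t) ^ k) d)

lemma Orb.refl (t : TC) (d : DS) : Orb t d d := ⟨0, Or.inl (by simp)⟩

lemma Orb.rev_right {t : TC} {d e : DS} (h : Orb t d e) : Orb t d (rev e) := by
  obtain ⟨k, h | h⟩ := h
  · exact ⟨k, Or.inr (by rw [h])⟩
  · exact ⟨k, Or.inl (by rw [h, rev_rev])⟩

lemma Orb.nxt_right {t : TC} {d e : DS} (h : Orb t d e) : Orb t d (nxt t e) := by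
  obtain ⟨k, rfl | rfl⟩ := h
  · refine ⟨1 + k, Or.inl ?_⟩
    rw [zpow_add, zpow_one]
    rfl
  · refine ⟨-1 + k, Or.inr ?_⟩
    rw [rev_zpow, rev_zpow, neg_add, neg_neg, zpow_add, zpow_one]
    rfl

lemma Orb.symm {t : TC} {d e : DS} (h : Orb t d e) : Orb t e d := by
  obtain ⟨k, rfl | rfl⟩ := h
  · refine ⟨-k, Or.inl ?_⟩
    rw [← Equiv.Perm.mul_apply, ← zpow_add, neg_add_cancel, zpow_zero]
    rfl
  · refine ⟨k, Or.inr ?_⟩
    rw [rev_zpow, rev_rev, ← Equiv.Perm.mul_apply, ← zpow_add, neg_add_cancel, zpow_zero]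
    rfl

lemma Orb.trans {t : TC} {d e f : DS} (h : Orb t d e) (h' : Orb t e f) : Orb t d f := by
  obtain ⟨k, rfl | rfl⟩ := h
  · obtain ⟨l, rfl | rfl⟩ := h'
    · refine ⟨l + k, Or.inl ?_⟩
      rw [zpow_add]
      rfl
    · refine ⟨l + k, Or.inr ?_⟩
      rw [zpow_add]
      rfl
  · obtain ⟨l, rfl | rfl⟩ := h'
    · refine ⟨-l + k, Or.inr ?_⟩
      rw [rev_zpow, rev_zpow, neg_add, neg_neg, zpow_add]
      rfl
    · refine ⟨-l + k, Or.inl ?_⟩
      rw [rev_zpow t l, rev_rev, zpow_add]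
      rfl

lemma zpow_nat (t : TC) (n : ℕ) (d : DS) : ((stp t) ^ (n : ℤ)) d = (nxt t)^[n] d := by
  rw [zpow_natCast, ← Equiv.Perm.iterate_eq_pow]
  rfl

section
variable {L m : ℕ} {t : TC} {S : St}

/-- all strands of level zero return, and the state knows it -/
structure Ret (L : ℕ) (t : TC) (m : ℕ) (S : St) : Prop where
  up : ∀ x, ∃ y, PathUp t m x y ∧ S (nd L x) (nd L y)
  dn : ∀ x, ∃ y, PathDn t m x y ∧ S (nd L x) (nd L y)

lemma updn_ne (x y : ℤ) : up x 0 ≠ dn y 0 := up_ne_dn x y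

lemma ret_iter (h : Ret L t m S) (k : ℕ) : ∀ z y,
    (((nxt t)^[k] (up z 0) = up y 0 ∨ (nxt t)^[k] (up z 0) = dn y 0) → S (nd L z) (nd L y)) ∧
    (((nxt t)^[k] (dn z 0) = up y 0 ∨ (nxt t)^[k] (dn z 0) = dn y 0) → S (nd L z) (nd L y)) := by
  induction k using Nat.strong_induction_on with
  | _ k ih =>
    intro z y
    constructor
    · intro hk
      obtain ⟨y', ⟨n, hn, hmin⟩, hS⟩ := h.up z
      rcases Nat.lt_or_ge k n with hkn | hkn
      · have h1 := hmin k hkn
        rcases hk with hk | hk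
        · rcases Nat.eq_zero_or_pos k with rfl | hpos
          · have : z = y := up_inj hk
            rw [this]
          · obtain ⟨j, rfl⟩ : ∃ j, k = j + 1 := ⟨k - 1, by omega⟩
            have h2 := hmin j (by omega)
            rw [Function.iterate_succ_apply'] at hk
            have h3 : (rev (nxt t ((nxt t)^[j] (up z 0)))).1 = ((nxt t)^[j] (up z 0)).1 := by rw [rev_nxt]
            rw [hk, rev_up] at h3
            rw [← h3] at h2
            have := h2.1
            simp [H81Tile.dn] at this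
        · rw [hk] at h1
          have := h1.1
          simp [H81Tile.dn] at this
      · have hn0 : n ≠ 0 := by
          rintro rfl
          exact updn_ne _ _ hn
        have e : (nxt t)^[k] (up z 0) = (nxt t)^[k - n] (dn y' 0) := by
          rw [← hn, ← Function.iterate_add_apply, show k - n + n = k by omega]
        rw [e] at hk
        exact S.trans hS ((ih (k - n) (by omega) y' y).2 hk)
    · intro hk
      obtain ⟨y', ⟨n, hn, hmin⟩, hS⟩ := h.dn z
      rcases Nat.lt_or_ge k n with hkn | hkn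
      · have h1 := hmin k hkn
        rcases hk with hk | hk
        · rw [hk] at h1
          have := h1.2
          simp [H81Tile.up] at this
        · rcases Nat.eq_zero_or_pos k with rfl | hpos
          · have : z = y := dn_inj hk
            rw [this]
          · obtain ⟨j, rfl⟩ : ∃ j, k = j + 1 := ⟨k - 1, by omega⟩
            have h2 := hmin j (by omega)
            rw [Function.iterate_succ_apply'] at hk
            have h3 : (rev (nxt t ((nxt t)^[j] (dn z 0)))).1 = ((nxt t)^[j] (dn z 0)).1 := by rw [rev_nxt]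
            rw [hk, rev_dn] at h3
            rw [← h3] at h2
            have := h2.2
            simp [H81Tile.up] at this
      · have hn0 : n ≠ 0 := by
          rintro rfl
          exact updn_ne _ _ hn.symm
        have e : (nxt t)^[k] (dn z 0) = (nxt t)^[k - n] (up y' 0) := by
          rw [← hn, ← Function.iterate_add_apply, show k - n + n = k by omega]
        rw [e] at hk
        exact S.trans hS ((ih (k - n) (by omega) y' y).1 hk)

lemma ret_orb (h : Ret L t m S) {z y : ℤ} (ho : Orb t (up z 0) (up y 0)) : S (nd L z) (nd L y) := by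
  obtain ⟨k, hk⟩ := ho
  rcases le_total 0 k with h0 | h0
  · obtain ⟨n, rfl⟩ := Int.eq_ofNat_of_zero_le h0
    rw [zpow_nat] at hk
    rcases hk with hk | hk
    · exact ((ret_iter h n) z y).1 (Or.inl hk.symm)
    · refine ((ret_iter h n) z y).1 (Or.inr ?_)
      rw [← rev_up, hk, rev_rev]
  · obtain ⟨n, hn⟩ := Int.eq_ofNat_of_zero_le (show 0 ≤ -k by omega)
    have hk' : k = -(n:ℤ) := by omega
    subst hk'
    rcases hk with hk | hk
    · have h1 : (nxt t)^[n] (up y 0) = up z 0 := by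
        rw [← zpow_nat, hk, ← Equiv.Perm.mul_apply, ← zpow_add, add_neg_cancel, zpow_zero]
        rfl
      exact S.symm (((ret_iter h n) y z).1 (Or.inl h1))
    · have h1 : (nxt t)^[n] (dn y 0) = up z 0 := by
        rw [← rev_up, hk, rev_rev, ← zpow_nat, ← Equiv.Perm.mul_apply, ← zpow_add, add_neg_cancel,
          zpow_zero]
        rfl
      exact S.symm (((ret_iter h n) y z).2 (Or.inl h1))

/-- all sides of the interfaces of a block -/
def OS (L : ℕ) (t : TC) (S : St) (x : ℕ) : Set DS := {d | ∃ z : ℤ, S x (nd L z) ∧ Orb t (up z 0) d}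

lemma os_closed (L : ℕ) (t : TC) (S : St) (x : ℕ) (R : Set (ℤ × ℤ)) : ClosedOn t R (OS L t S x) := by
  constructor
  · rintro d ⟨z, h1, h2⟩
    exact ⟨z, h1, h2.rev_right⟩
  · rintro d ⟨z, h1, h2⟩ _
    refine ⟨z, h1, ?_⟩
    rw [← rev_nxt]
    exact h2.nxt_right.rev_right

lemma os_up (h : Ret L t m S) {x : ℕ} {z : ℤ} : up z 0 ∈ OS L t S x ↔ S x (nd L z) := by
  constructor
  · rintro ⟨y, h1, h2⟩
    exact S.trans h1 (ret_orb h h2)
  · intro h1
    exact ⟨z, h1, Orb.refl _ _⟩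

lemma os_disj (h : Ret L t m S) {x y : ℕ} {d : DS} (hx : d ∈ OS L t S x) (hy : d ∈ OS L t S y) : S x y := by
  obtain ⟨z, h1, h2⟩ := hx
  obtain ⟨z', h3, h4⟩ := hy
  exact S.trans h1 (S.trans (ret_orb h (h2.trans h4.symm)) (S.symm h3))

end

/-! ### counting along a path -/

lemma card_odd_le {ι : Type*} [DecidableEq ι] {F G H : Finset ι} {k : ℕ} (h : G ⊆ F ∪ H) (hF : F.card ≤ k)
    (hH : ∀ a ∈ H, ∀ b ∈ H, a = b) : G.card ≤ k + 1 := by
  have h1 := (card_le_card h).trans (card_union_le _ _)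
  have h2 : H.card ≤ 1 := card_le_one.2 hH
  omega

open Classical in
lemma reach_count {ι : Type*} (F : Finset ι) (W : ι → ℤ × ℤ → ZMod 2) (a : ι → ZMod 2)
    {O : Set (Sym2 (ℤ × ℤ))} {S A : Set Pt} (hst : ∀ p ∈ A, ∀ B ∈ F, W B (cn p) = a B)
    (hopn : ∀ u v, lattice.Adj u v → s(u, v) ∈ O → (u, false) ∈ S → (v, false) ∈ S →
      ∀ B ∈ F, W B (st u) = W B (st v))
    (hcls : ∀ f g u v, lattice.Adj u v → s(u, v) ∉ O → Cor u f → Cor v f → Cor u g → Cor v g →
      (f, true) ∈ S → (g, true) ∈ S → ∀ B ∈ F, W B (fc f) = W B (fc g))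
    (hcol : ∀ u f, Cor u f → (u, false) ∈ S → (f, true) ∈ S → ∀ B ∈ F, ∀ B' ∈ F,
      W B (st u) ≠ W B (fc f) → W B' (st u) ≠ W B' (fc f) → B = B') {k : ℕ} {p : Pt}
    (h : Reach O S A k p) : (F.filter fun B => W B (cn p) ≠ a B).card ≤ k := by
  induction h with
  | start hp _ =>
    rw [Nat.le_zero, card_eq_zero, filter_eq_empty_iff]
    intro B hB
    rw [not_not]
    exact hst _ hp B hB
  | @opn k u v h hadj ho hs ih =>
    have e : (F.filter fun B => W B (cn (v, false)) ≠ a B) = F.filter fun B => W B (cn (u, false)) ≠ a B := by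
      apply filter_congr
      intro B hB
      rw [cn_v, cn_v, hopn u v hadj ho h.mem hs B hB]
    rw [e]
    exact ih
  | @cls k f g u v h hadj ho c1 c2 c3 c4 hs ih =>
    have e : (F.filter fun B => W B (cn (g, true)) ≠ a B) = F.filter fun B => W B (cn (f, true)) ≠ a B := by
      apply filter_congr
      intro B hB
      rw [cn_f, cn_f, hcls f g u v hadj ho c1 c2 c3 c4 h.mem hs B hB]
    rw [e]
    exact ih
  | @dn k u f h hc hs ih =>
    refine card_odd_le (H := F.filter fun B => W B (st u) ≠ W B (fc f)) ?_ ih ?_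
    · intro B hB
      rw [mem_filter] at hB
      rw [mem_union, mem_filter, mem_filter]
      by_cases h1 : W B (cn (u, false)) ≠ a B
      · exact Or.inl ⟨hB.1, h1⟩
      · right
        rw [not_not] at h1
        refine ⟨hB.1, ?_⟩
        rw [← cn_v, h1]
        exact fun e => hB.2 e.symm
    · intro B hB B' hB'
      rw [mem_filter] at hB hB'
      exact hcol u f hc h.mem hs B hB.1 B' hB'.1 hB.2 hB'.2
  | @up k u f h hc hs ih =>
    refine card_odd_le (H := F.filter fun B => W B (st u) ≠ W B (fc f)) ?_ ih ?_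
    · intro B hB
      rw [mem_filter] at hB
      rw [mem_union, mem_filter, mem_filter]
      by_cases h1 : W B (cn (f, true)) ≠ a B
      · exact Or.inl ⟨hB.1, h1⟩
      · right
        rw [not_not] at h1
        refine ⟨hB.1, ?_⟩
        rw [← cn_f f, h1]
        exact fun e => hB.2 e
    · intro B hB B' hB'
      rw [mem_filter] at hB hB'
      exact hcol u f hc hs h.mem B hB.1 B' hB'.1 hB.2 hB'.2

/-- the side between a vertex and a face -/
lemma cor_side {u f : ℤ × ℤ} (h : Cor u f) : ∃ d : DS, ((lc d = st u ∧ rc d = fc f) ∨ (lc d = fc f ∧ rc d = st u)) ∧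
    (st u).2 - 1 ≤ d.1.2 ∧ d.1.2 ≤ (st u).2 := by
  obtain ⟨u1, u2⟩ := u
  obtain ⟨f1, f2⟩ := f
  obtain ⟨h1 | h1, h2 | h2⟩ := h <;> simp only at h1 h2 <;> subst h1 <;> subst h2
  · -- below
    refine ⟨ve (u1 - u2) (u1 + u2), Or.inr ?_, ?_, ?_⟩
    · rw [(ve_corners _ _).1, (ve_corners _ _).2]
      exact ⟨rfl, rfl⟩
    · unfold st ve; simp
    · unfold st ve; simp
  · -- left
    refine ⟨up (u1 - (f2 + 1)) (u1 + (f2 + 1)), Or.inl ?_, ?_, ?_⟩
    · rw [(up_zero _ _).1, (up_zero _ _).2]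
      refine ⟨rfl, ?_⟩
      unfold fc
      ext
      · simp only; ring
      · simp only; ring
    · unfold st H81Tile.up; simp
    · unfold st H81Tile.up; simp
  · -- right
    refine ⟨up (f1 - u2) (f1 + u2 + 1), Or.inr ?_, ?_, ?_⟩
    · rw [(up_zero _ _).1, (up_zero _ _).2]
      refine ⟨rfl, ?_⟩
      unfold st
      ext
      · simp only; ring
      · simp only; ring
    · unfold st H81Tile.up; simp only; omega
    · unfold st H81Tile.up; simp only; omega
  · -- above
    refine ⟨ve (f1 - f2) (f1 + f2 + 1), Or.inl ?_, ?_, ?_⟩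
    · rw [(ve_corners _ _).1, (ve_corners _ _).2]
      refine ⟨?_, rfl⟩
      unfold st
      ext
      · simp only; ring
      · simp only; ring
    · unfold st ve; simp only; omega
    · unfold st ve; simp only; omega

lemma cor_sep_v {f g : ℤ × ℤ} {x y : ℤ} (c1 : Cor (x, y) f) (c2 : Cor (x, y + 1) f) (c3 : Cor (x, y) g)
    (c4 : Cor (x, y + 1) g) : f = g ∨ H81Tile.Sep f g s((x, y), (x, y + 1)) := by
  obtain ⟨f1, f2⟩ := f
  obtain ⟨g1, g2⟩ := g
  unfold Cor at c1 c2 c3 c4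
  simp only at c1 c2 c3 c4
  have e1 : f2 = y := by omega
  have e2 : g2 = y := by omega
  subst e1
  subst e2
  rcases (by omega : f1 = g1 ∨ (x = f1 + 1 ∧ g1 = f1 + 1) ∨ (x = g1 + 1 ∧ f1 = g1 + 1)) with h | ⟨h, h'⟩ | ⟨h, h'⟩
  · left; rw [h]
  · right; left
    subst h; subst h'
    exact ⟨rfl, rfl⟩
  · right; right; left
    subst h; subst h'
    exact ⟨rfl, rfl⟩

lemma cor_sep_h {f g : ℤ × ℤ} {x y : ℤ} (c1 : Cor (x, y) f) (c2 : Cor (x + 1, y) f) (c3 : Cor (x, y) g)
    (c4 : Cor (x + 1, y) g) : f = g ∨ H81Tile.Sep f g s((x, y), (x + 1, y)) := by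
  obtain ⟨f1, f2⟩ := f
  obtain ⟨g1, g2⟩ := g
  unfold Cor at c1 c2 c3 c4
  simp only at c1 c2 c3 c4
  have e1 : f1 = x := by omega
  have e2 : g1 = x := by omega
  subst e1
  subst e2
  rcases (by omega : f2 = g2 ∨ (y = f2 + 1 ∧ g2 = f2 + 1) ∨ (y = g2 + 1 ∧ f2 = g2 + 1)) with h | ⟨h, h'⟩ | ⟨h, h'⟩
  · left; rw [h]
  · right; right; right; left
    subst h; subst h'
    exact ⟨rfl, rfl⟩
  · right; right; right; right
    subst h; subst h'
    exact ⟨rfl, rfl⟩

lemma cor_sep {f g u v : ℤ × ℤ} (hadj : lattice.Adj u v) (c1 : Cor u f) (c2 : Cor v f) (c3 : Cor u g)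
    (c4 : Cor v g) : f = g ∨ H81Tile.Sep f g s(u, v) := by
  obtain ⟨u1, u2⟩ := u
  rcases adj_cases hadj with rfl | rfl | rfl | rfl
  · exact cor_sep_v c1 c2 c3 c4
  · have e : ((u1, u2) : ℤ × ℤ) = (u1, u2 - 1 + 1) := by rw [sub_add_cancel]
    rw [e] at c1 c3 ⊢
    rw [Sym2.eq_swap]
    simp only [add_sub_cancel_right] at *
    exact cor_sep_v c2 c1 c4 c3
  · exact cor_sep_h c1 c2 c3 c4
  · have e : ((u1, u2) : ℤ × ℤ) = (u1 - 1 + 1, u2) := by rw [sub_add_cancel]
    rw [e] at c1 c3 ⊢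
    rw [Sym2.eq_swap]
    simp only [add_sub_cancel_right] at *
    exact cor_sep_h c2 c1 c4 c3

/-! ### parity of the blocks -/

open Classical in
/-- the block of `x`, all nodes -/
lemma blk_even {L : ℕ} {σ S : St} (hσ : σ ∈ W L) (hS : ∀ x y, σ x y → S x y) (x : ℕ) :
    Even ((Ico 4 (2 * L + 4)).filter fun y => S x y).card := by
  obtain ⟨P, hP1, hP2, hP3, hP4⟩ := bb_partner hσ.1.1
  apply lf_even_invol _ P hP1
  · intro y hy
    rw [mem_filter, mem_Ico] at hy
    exact (hP2 y hy.1.2).2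
  · intro y hy
    rw [mem_filter, mem_Ico] at hy ⊢
    have h5 : σ y (P y) := (hP4 y (P y)).2 (Or.inr rfl)
    exact ⟨(lf_node hσ h5).1 hy.1, S.trans hy.2 (hS _ _ h5)⟩

open Classical in
lemma blk_copies {L : ℕ} {σ S : St} (hσ : σ ∈ W L) (hS : ∀ x y, σ x y → S x y) (x : ℕ)
    (hodd : Odd (lf_blk (lf_A L) S x).card) (c : ℕ) (hc : c < 2) :
    Odd ((range L).filter fun i => S x (2 * i + 4 + c)).card := by
  have h0 : (lf_blk (lf_A L) S x).card = ((range L).filter fun i => S x (2 * i + 4)).card := by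
    unfold lf_blk lf_A
    rw [filter_image, card_image_of_injective _ (fun a b h => by have h' : 2 * a + 4 = 2 * b + 4 := h; omega)]
  rcases (by omega : c = 0 ∨ c = 1) with rfl | rfl
  · rw [h0] at hodd
    exact hodd
  · have hE := blk_even hσ hS x
    rw [← card_filter_add_card_filter_not (fun y => y % 2 = 0)] at hE
    have e1 : (((Ico 4 (2 * L + 4)).filter fun y => S x y).filter fun y => y % 2 = 0) = lf_blk (lf_A L) S x := by
      ext y
      rw [lf_mem_blk, mem_filter, mem_filter, mem_Ico, lf_mem_A]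
      tauto
    have e2 : (((Ico 4 (2 * L + 4)).filter fun y => S x y).filter fun y => ¬ y % 2 = 0) =
        ((range L).filter fun i => S x (2 * i + 4 + 1)).image fun i => 2 * i + 4 + 1 := by
      ext y
      rw [mem_filter, mem_filter, mem_Ico, mem_image]
      constructor
      · rintro ⟨⟨h1, h2⟩, h3⟩
        refine ⟨(y - 5) / 2, ?_, by omega⟩
        rw [mem_filter, mem_range]
        have e : 2 * ((y - 5) / 2) + 4 + 1 = y := by omega
        rw [e]
        exact ⟨by omega, h2⟩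
      · rintro ⟨i, hi, rfl⟩
        rw [mem_filter, mem_range] at hi
        exact ⟨⟨by omega, hi.2⟩, by omega⟩
    rw [e1, e2, card_image_of_injective _
      (fun a b h => by have h' : 2 * a + 4 + 1 = 2 * b + 4 + 1 := h; omega)] at hE
    rw [Nat.even_add] at hE
    rw [← Nat.not_even_iff_odd] at hodd ⊢
    tauto

lemma nd_period {L : ℕ} (k : ℤ) {i : ℕ} (hi : i < L) :
    nd L (k * L + i) = 2 * i + 4 + (k % 2).toNat := by
  unfold nd
  have hL : (L:ℤ) ≠ 0 := by omega
  have e1 : (k * (L:ℤ) + i) % L = i := by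
    rw [add_comm, Int.add_mul_emod_self_right]
    exact Int.emod_eq_of_lt (by positivity) (by omega)
  have e2 : (k * (L:ℤ) + i) / L = k := by
    rw [add_comm, Int.add_mul_ediv_right _ _ hL, Int.ediv_eq_zero_of_lt (by positivity) (by omega), zero_add]
  rw [e1, e2, Int.toNat_natCast]

open Classical in
lemma blk_sum {L m : ℕ} {t : TC} {σ S : St} (hσ : σ ∈ W L) (hS : ∀ x y, σ x y → S x y) (h : Ret L t m S) (x : ℕ)
    (hodd : Odd (lf_blk (lf_A L) S x).card) (k : ℤ) :
    ∑ i ∈ range L, chi (OS L t S x) (up (k * L + i) 0) = 1 := by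
  have e : ∀ i ∈ range L, chi (OS L t S x) (up (k * L + i) 0) =
      if S x (2 * i + 4 + (k % 2).toNat) then 1 else 0 := by
    intro i hi
    rw [mem_range] at hi
    unfold chi
    have h1 := os_up h (x := x) (z := k * L + i)
    rw [nd_period k hi] at h1
    by_cases h2 : S x (2 * i + 4 + (k % 2).toNat)
    · rw [if_pos h2, if_pos (h1.2 h2)]
    · rw [if_neg h2, if_neg (fun h3 => h2 (h1.1 h3))]
  rw [sum_congr rfl e, Finset.sum_boole]
  have h2 := blk_copies hσ hS x hodd (k % 2).toNat (by omega)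
  exact (ZMod.natCast_eq_one_iff_odd).2 h2

/-- the potential on the lifts of the marked site -/
lemma pot_lifts {L m : ℕ} {t : TC} {σ S : St} (hσ : σ ∈ W L) (hS : ∀ x y, σ x y → S x y)
    (h : Ret L t m S) {x : ℕ} (hodd : Odd (lf_blk (lf_A L) S x).card) {a b : ℤ} (ha : a ≤ 0) (hb : 0 ≤ b)
    {W : ℤ × ℤ → ZMod 2} (hW : PotOn a b (OS L t S x) W) (k : ℤ) :
    W (k * L, 0) = W (0, 0) + (k : ZMod 2) := by
  have h1 : ∀ k : ℤ, W (k * L, 0) + (k : ZMod 2) = W ((k + 1) * L, 0) + ((k + 1 : ℤ) : ZMod 2) := by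
    intro k
    have h2 := hW.sum (k * L) 0 ha hb L
    rw [blk_sum hσ hS h x hodd k, show k * (L:ℤ) + L = (k + 1) * L by ring] at h2
    push_cast
    linear_combination h2 - zz (W ((k + 1) * L, 0))
  have h2 := const_of_step (f := fun k : ℤ => W (k * L, 0) + (k : ZMod 2)) h1 k
  simp only [zero_mul, Int.cast_zero, add_zero] at h2
  linear_combination h2 - zz (k : ZMod 2)

/-! ### the theorem -/

lemma pathUp_mir {t : TC} {m x y : ℤ} (h : PathUp (mirT t) m x y) : PathDn t m x y := by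
  obtain ⟨n, h1, h2⟩ := h
  refine ⟨n, ?_, ?_⟩
  · rw [← mir_dn x, iter_mir] at h1
    rw [← mir_mir ((nxt t)^[n] (dn x 0)), h1, mir_dn]
  · intro i hi
    have := h2 i hi
    rw [← mir_dn x, iter_mir] at this
    have h3 : 0 ≤ -1 - ((nxt t)^[i] (dn x 0)).1.2 := this.1
    have h4 : -1 - ((nxt t)^[i] (dn x 0)).1.2 < m := this.2
    show -m ≤ ((nxt t)^[i] (dn x 0)).1.2 ∧ ((nxt t)^[i] (dn x 0)).1.2 < 0
    omega

lemma ret_of_dead {L m : ℕ} {t : TC} {b b' : ℕ → ℕ → Bool} {σ τ : St} (hL : 0 < L) (ht : Per L t)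
    (hb : ∀ j < m, ∀ i < L, t ((i : ℤ), (j : ℤ)) = b j i)
    (hb' : ∀ j < m, ∀ i < L, t ((i : ℤ), -1 - (j : ℤ)) = !b' j i)
    (hσ : σ ∈ W L) (hτ : τ ∈ W L) (hdead : Dead t m) :
    Ret L t m (mact L b m σ ⊔ mact L b' m τ) := by
  constructor
  · intro x
    obtain ⟨y, hy⟩ := returns hL ht (m := m) (fun x z hx hc => (hdead x z hx).1 (hc.mono (by
      intro p hp
      have h1 : (0:ℤ) ≤ p.2 := hp.1
      have h2 : p.2 < m := hp.2
      show -(m:ℤ) ≤ p.2 ∧ p.2 < m
      omega))) x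
    exact ⟨y, hy, sup_left (rel_of_pathUp hL ht hb hσ hy)⟩
  · intro x
    obtain ⟨y, hy⟩ := returns hL ht.mirT (m := m) (fun x z hx hc => by
      have h2 := cconn_mir hc
      have e : ∀ x : ℤ, mcr (x, 0) = (x, 0) := fun x => by unfold mcr; simp
      rw [mirT_mirT, e, neg_zero] at h2
      exact (hdead x z hx).2 (h2.mono (by
        intro p hp
        have h1 : -(m:ℤ) ≤ p.2 := hp.1
        have h2 : p.2 < 0 := hp.2
        show -(m:ℤ) ≤ p.2 ∧ p.2 < m
        omega))) x
    have hy' := pathUp_mir hy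
    exact ⟨y, hy', sup_right (rel_of_pathDn hL ht hb' hτ hy')⟩

/-- (B) upper bound of the number of loops -/
theorem loops_le {n N : ℕ} (hn : 1 ≤ n) (_hN : N % 2 = 1) {ω : Finset (Sym2 (ℤ × ℤ))}
    (hω : ω ⊆ cylE n (-(N:ℤ)) N) {i j : ℕ} {p : Pt}
    (h0 : Reach (lft n ω) (SS (N + 1)) (Lf n 0) i p) (h1 : Reach (lft n ω) (SS (N + 1)) (Lf n 1) j p) :
    nl n N ω ≤ i + j := by
  classical
  have hL : 0 < 2 * n := by omega
  have ht := tc_per hn ω
  set t := tc n ω with htd
  have hret : Ret (2 * n) t (N + 1) (sgU n N ω ⊔ sgD n N ω) :=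
    ret_of_dead hL ht (b := fun j i => tc n ω ((i:ℤ), (j:ℤ)))
      (b' := fun j i => !tc n ω ((i:ℤ), -1 - (j:ℤ))) (fun _ _ _ _ => rfl)
      (fun _ _ _ _ => by rw [Bool.not_not]) (top_W _) (top_W _) (dead hω)
  have hσ : sgU n N ω ∈ W (2 * n) := mact_W _ _ (top_W _)
  set S := sgU n N ω ⊔ sgD n N ω with hS
  have hsub : ∀ x y, sgU n N ω x y → S x y := fun x y h => sup_left h
  -- representatives
  set F : Finset (Finset ℕ) := ((lf_A (2 * n)).filter fun x => Odd (lf_blk (lf_A (2 * n)) S x).card).image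
    (lf_blk (lf_A (2 * n)) S) with hF
  have hnl : nl n N ω = F.card := by
    unfold nl
    rw [lf_nodd]
    rfl
  have hrep : ∀ B : Finset ℕ, ∃ x, B ∈ F → Odd (lf_blk (lf_A (2 * n)) S x).card ∧
      lf_blk (lf_A (2 * n)) S x = B := by
    intro B
    by_cases hB : B ∈ F
    · obtain ⟨x, hx, rfl⟩ := mem_image.1 hB
      exact ⟨x, fun _ => ⟨(mem_filter.1 hx).2, rfl⟩⟩
    · exact ⟨0, fun h => absurd h hB⟩
  choose rep hrep using hrep
  have hdist : ∀ B ∈ F, ∀ B' ∈ F, S (rep B) (rep B') → B = B' := by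
    intro B hB B' hB' h
    rw [← (hrep B hB).2, ← (hrep B' hB').2]
    exact lf_blk_eq _ h
  -- potentials
  have hcl : ∀ B, ClosedOn t (rows (-((N:ℤ) + 5)) ((N:ℤ) + 5)) (OS (2 * n) t S (rep B)) :=
    fun B => os_closed _ _ _ _ _
  have hpot : ∀ B, ∃ Wt, PotOn (-((N:ℤ) + 5)) ((N:ℤ) + 5) (OS (2 * n) t S (rep B)) Wt :=
    fun B => exists_potOn (hcl B)
  choose Wt hWt using hpot
  have hlift : ∀ B ∈ F, ∀ k : ℤ, Wt B (k * ((2 * n : ℕ) : ℤ), 0) = Wt B (0, 0) + (k : ZMod 2) :=
    fun B hB k => pot_lifts hσ hsub hret (hrep B hB).1 (by omega) (by omega) (hWt B) k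
  have hst : ∀ s : ℤ, ∀ q ∈ Lf n s, ∀ B ∈ F, Wt B (cn q) = Wt B (0, 0) + (s : ZMod 2) := by
    rintro s q ⟨k, rfl⟩ B hB
    rw [cn_v, per_apply]
    have e : st ((0:ℤ) + (2 * k + s) * n, (0:ℤ) + -((2 * k + s) * n)) =
        ((2 * k + s) * ((2 * n : ℕ) : ℤ), 0) := by
      unfold st
      ext
      · simp only
        push_cast
        ring
      · simp only
        ring
    show Wt B (st ((0:ℤ) + (2 * k + s) * n, (0:ℤ) + -((2 * k + s) * n))) = _
    rw [e, hlift B hB]
    push_cast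
    have h2 : (2 : ZMod 2) = 0 := by decide
    rw [h2]
    ring
  have hstep : ∀ u v : ℤ × ℤ, CStep t Set.univ u v → -((N:ℤ) + 1) ≤ u.2 → u.2 ≤ (N:ℤ) + 1 →
      ∀ B, Wt B u = Wt B v := by
    rintro u v ⟨q, _, hq⟩ h3 h4 B
    have h5 := jn_height hq
    refine (hWt B).join (hcl B) ?_ hq
    show -((N:ℤ) + 5) ≤ q.2 ∧ q.2 < (N:ℤ) + 5
    omega
  have huniv : tilesOf Set.univ = Set.univ := rfl
  have key : ∀ (s : ℤ) {k : ℕ}, Reach (lft n ω) (SS (N + 1)) (Lf n s) k p →
      (F.filter fun B => Wt B (cn p) ≠ Wt B (0, 0) + (s : ZMod 2)).card ≤ k := by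
    intro s k hr
    refine reach_count F Wt (fun B => Wt B (0, 0) + (s : ZMod 2)) (hst s) ?_ ?_ ?_ hr
    · intro u v hadj ho hu _ B _
      have h3 := cstep_of_vstep (E := Set.univ) (ω := lft n ω) (u := u) (v := v) ⟨Set.mem_univ _, ho, hadj⟩
      rw [huniv] at h3
      have h4 := hu.1 rfl
      refine hstep _ _ h3 ?_ ?_ B
      · exact h4.1
      · exact h4.2
    · intro f g u v hadj ho c1 c2 c3 c4 hf _ B _
      rcases cor_sep hadj c1 c2 c3 c4 with rfl | hsep
      · rfl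
      · have h3 := cstep_of_fstep (E := Set.univ) (ω := lft n ω) (f := f) (g := g)
          ⟨_, Set.mem_univ _, ho, hsep⟩
        rw [huniv] at h3
        have h4 := hf.2 rfl
        refine hstep _ _ h3 ?_ ?_ B
        · exact h4.1
        · exact h4.2
    · intro u f hc hu _ B hB B' hB' h3 h4
      obtain ⟨d, hd, hd1, hd2⟩ := cor_side hc
      have h5 := hu.1 rfl
      simp only at h5
      have hrow : d.1 ∈ rows (-((N:ℤ) + 5)) ((N:ℤ) + 5) := by
        show -((N:ℤ) + 5) ≤ d.1.2 ∧ d.1.2 < (N:ℤ) + 5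
        unfold st at hd1 hd2
        simp only at hd1 hd2
        omega
      have hmem : ∀ B, Wt B (st u) ≠ Wt B (fc f) → d ∈ OS (2 * n) t S (rep B) := by
        intro B h6
        by_contra hno
        have h7 := (hWt B).side (hcl B) hrow
        have h8 : chi (OS (2 * n) t S (rep B)) d = 0 := by
          unfold chi
          rw [if_neg hno]
        rw [h8] at h7
        have h9 := eq_of_add_zero h7
        rcases hd with ⟨e1, e2⟩ | ⟨e1, e2⟩
        · rw [e1, e2] at h9
          exact h6 h9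
        · rw [e1, e2] at h9
          exact h6 h9.symm
      exact hdist B hB B' hB' (os_disj hret (hmem B h3) (hmem B' h4))
  have k0 := key 0 h0
  have k1 := key 1 h1
  rw [hnl]
  have hcov : F ⊆ (F.filter fun B => Wt B (cn p) ≠ Wt B (0, 0) + ((0:ℤ) : ZMod 2)) ∪
      (F.filter fun B => Wt B (cn p) ≠ Wt B (0, 0) + ((1:ℤ) : ZMod 2)) := by
    intro B hB
    rw [mem_union, mem_filter, mem_filter]
    by_contra hcon
    have h2 : Wt B (cn p) = Wt B (0, 0) + ((0:ℤ) : ZMod 2) := by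
      by_contra h
      exact hcon (Or.inl ⟨hB, h⟩)
    have h3 : Wt B (cn p) = Wt B (0, 0) + ((1:ℤ) : ZMod 2) := by
      by_contra h
      exact hcon (Or.inr ⟨hB, h⟩)
    rw [h2] at h3
    have h4 := add_left_cancel h3
    exact absurd h4 (by decide)
  have h5 := (card_le_card hcov).trans (card_union_le _ _)
  omega

end H82Nest
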